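import Mathlib
import Pool.Agent.J6H72.PG.Fin

/-!
# Graph incidence groups of planar graphs have complete rewriting systems

The graph incidence groups `Γ(G, b)` and `Γ(G)` of EVERY planar multigraph `G`, connected or not, with
every `ℤ/2`-colouring `b`, have complete rewriting systems. So no planar graph answers the question
positively.

For a disconnected graph the group is an amalgam of the groups of the components over `⟨J⟩`, and it is not
clear that complete rewriting systems of the factors can be combined. Instead one region of every component
is chosen, the chosen regions are identified (as for the graph drawn in the plane, with the components side
by side), and `Γ(G)` is shown to be the even subgroup of the right-angled Coxeter group whose generators are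
the merged regions, two of them commuting if they share a vertex. The inverse of the map from `Γ(G)` to this
group is given by an action of the Coxeter group on two copies of `Γ(G)`.
-/

set_option autoImplicit false

namespace Pool.Agent.Results.MP_1b5c59_al.AllPlanar

open Pool.Agent.Helper2GI Pool.Agent.Helper2CR

/-- For every valid code `c` of a finite loopless multigraph with a colouring whose components are all
planar, both graph incidence groups have complete rewriting systems. -/
theorem result (c : Code) (hV : Valid c) (h : Planar c) :
    HasCRS (Gam c) ∧ HasCRS (Gam c ⧸ Subgroup.normalClosure {J c}) :=
  Pool.Agent.J6H72.PG.all_planar hV h

end Pool.Agent.Results.MP_1b5c59_al.AllPlanar
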